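import Pool.Agent.Helper95.AU.Defs
import Pool.Agent.Helper6.AU.Dbl
import Pool.Agent.Helper94.AG.Net
import Pool.Agent.Helper10.AF.Amp
import Pool.Agent.Helper65.AF.LP0
import Pool.Agent.Helper5.AF.AllPar

/-! # Project AU (`MP_9ee088_an`), block U3: the mean loss at the times `2 ^ i` for all parameters at once, from `conc_lo` -/

set_option autoImplicit false
open MeasureTheory Real Set Filter Topology
open scoped ENNReal

namespace Pool.Agent.Helper65.AU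

open Pool.Agent.Helper18.UC (nn LL sqo rep toT)
open Pool.Agent.Helper46.QP (TT Td)
open Pool.Agent.Helper82.AN (Ow lawL eta Hw sq SepR)
open Pool.Agent.Helper95.AF (st po mt pM shb Fa gA up5 un5 frc DC Ho)
open Pool.Agent.Helper95.AU
open Pool.Agent.Helper95.AG (Bx)
open Pool.Agent.Helper5.AF (ho_cont frc_cont dc_mono shb_zero)

variable {d : ℕ}

/-- the statement of the block `conc_lo` -/
def ConcLo : Prop := ∃ C : ℝ, 1 ≤ C ∧ ∀ (d : ℕ) (γ : ℝ) (k : ℕ) (e : Fin k → Td d → ℝ) (U : Fin (k + 1) → ℝ) (α : Td d)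
    (r₀ a ρ : ℝ) (m M N P : ℕ) (β : Fin M → Td d), 0 < γ → (∀ i, Continuous (e i)) → U 0 ≠ 0 → 0 < r₀ →
    SepR α r₀ (2 * (m + 5)) M β → 1 ≤ M → 1 ≤ N → 1 ≤ P →
    2 * ((M * (2 * (m + 5)) : ℕ) : ℝ) ≤ (2 * N * r₀) ^ (2 * P) → 1 ≤ |a| → 0 < ρ → ρ ≤ 1 →
    ρ / (10 * (|a| + 1)) ^ 5 ≤ |U 0| * Real.exp (-((P * N : ℝ) ^ γ)) / 20 →
    ∫⁻ w, ENNReal.ofReal (Real.exp (M / 4 * ml α a (frc γ e U w) (m + 5))) ∂lawL d ≤
      ENNReal.ofReal ((C * (|a| + 1) / ρ) ^ (40 * M))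

theorem ev65 {a b : ℝ} (h : a < b) (K : ℝ) : ∀ᶠ i : ℕ in atTop, K * (2 : ℝ) ^ (a * i) ≤ (2 : ℝ) ^ (b * i) := by
  have h1 : Tendsto (fun i : ℕ => (2 : ℝ) ^ ((b - a) * i)) atTop atTop := by
    have h3 : Tendsto (fun i : ℕ => ((2 : ℝ) ^ (b - a)) ^ i) atTop atTop :=
      tendsto_pow_atTop_atTop_of_one_lt (Real.one_lt_rpow one_lt_two (sub_pos.2 h))
    refine h3.congr fun i => ?_
    rw [← Real.rpow_natCast, ← Real.rpow_mul two_pos.le]
  filter_upwards [h1.eventually_ge_atTop K] with i hi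
  calc K * (2 : ℝ) ^ (a * i) ≤ (2 : ℝ) ^ ((b - a) * i) * (2 : ℝ) ^ (a * i) :=
        mul_le_mul_of_nonneg_right hi (Real.rpow_nonneg two_pos.le _)
    _ = (2 : ℝ) ^ (b * i) := by
        rw [← Real.rpow_add two_pos]
        congr 1
        ring

theorem lin65 {b : ℝ} (h : 0 < b) (K L : ℝ) : ∀ᶠ i : ℕ in atTop, K + L * i ≤ (2 : ℝ) ^ (b * i) := by
  have h1 := tendsto_pow_const_div_const_pow_of_one_lt 1 (Real.one_lt_rpow one_lt_two h)
  have h2 : (0 : ℝ) < 1 / (|K| + |L| + 1) := by positivity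
  filter_upwards [h1.eventually (ge_mem_nhds h2), eventually_ge_atTop 1] with i hi hi1
  have h3 : (1 : ℝ) ≤ i := by exact_mod_cast hi1
  have h4 : (2 : ℝ) ^ (b * i) = ((2 : ℝ) ^ b) ^ i := by
    rw [← Real.rpow_natCast, ← Real.rpow_mul two_pos.le]
  rw [h4]
  have h5 : 0 < ((2 : ℝ) ^ b) ^ i := by positivity
  rw [pow_one, div_le_div_iff₀ h5 (by positivity), one_mul] at hi
  nlinarith [le_abs_self K, le_abs_self L, abs_nonneg K, abs_nonneg L,
    mul_le_mul_of_nonneg_right (le_abs_self L) (by linarith : (0 : ℝ) ≤ i)]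

theorem lo_meas (a : ℝ) (m : ℕ) : Measurable fun x : (ℕ → ℝ) × (ℝ × ℝ) => lo a x.1 m x.2 := by
  have hN : ∀ n, Measurable fun x : (ℕ → ℝ) × (ℝ × ℝ) => Real.log (nn (pM a x.1 n x.2)) := by
    intro n
    have h := Pool.Agent.Helper83.AF.continuous_pM2 a n
    have h1 : ∀ i j, Continuous fun x : (ℕ → ℝ) × (ℝ × ℝ) => pM a x.1 n x.2 i j := fun i j =>
      (continuous_apply j).comp ((continuous_apply i).comp h)
    have h2 : Continuous fun x : (ℕ → ℝ) × (ℝ × ℝ) => nn (pM a x.1 n x.2) := by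
      unfold nn
      exact ((((h1 0 0).abs).add (h1 0 1).abs).add (h1 1 0).abs).add (h1 1 1).abs
    exact Real.measurable_log.comp h2.measurable
  have h3 : Measurable fun x : (ℕ → ℝ) × (ℝ × ℝ) => ((shb x.1 m, po a x.1 m x.2) : (ℕ → ℝ) × (ℝ × ℝ)) := by
    refine Measurable.prodMk ?_ (Pool.Agent.Helper83.AF.continuous_po2 a m).measurable
    exact measurable_pi_lambda _ fun j => (measurable_pi_apply (j + m)).comp measurable_fst
  exact ((hN m).add ((hN m).comp h3)).sub (hN (2 * m))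

theorem ml_meas (γ : ℝ) {k : ℕ} {e : Fin k → Td d → ℝ} (he : ∀ i, Continuous (e i)) (U : Fin (k + 1) → ℝ) (α : Td d)
    (a : ℝ) (m : ℕ) : Measurable fun w : Ow d => ml α a (frc γ e U w) m := by
  have h1 : Measurable fun x : Ow d × (Td d × TT) => lo a (sq α (frc γ e U x.1) x.2.1) m (rep x.2.2) := by
    refine (lo_meas a m).comp (Measurable.prodMk ?_ ?_)
    · exact (Pool.Agent.Helper65.AF.sq_meas γ he U α).comp (measurable_fst.prodMk (measurable_fst.comp measurable_snd))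
    · exact Pool.Agent.Helper18.UC.measurable_rep.comp (measurable_snd.comp measurable_snd)
  exact (h1.stronglyMeasurable.integral_prod_right' (ν := (volume : Measure (Td d × TT)))).measurable

theorem mark65 {Ω : Type*} [MeasurableSpace Ω] {P : Measure Ω} {X : Ω → ℝ} (hX : Measurable X) {B t M : ℝ} (hM : 0 ≤ M)
    (h : ∫⁻ w, ENNReal.ofReal (Real.exp (M * X w)) ∂P ≤ ENNReal.ofReal (Real.exp B)) :
    P {w | t < X w} ≤ ENNReal.ofReal (Real.exp (B - M * t)) := by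
  have hm : Measurable fun w => ENNReal.ofReal (Real.exp (M * X w)) :=
    ENNReal.measurable_ofReal.comp (Real.measurable_exp.comp (hX.const_mul _))
  have h1 := (mul_meas_ge_le_lintegral (μ := P) hm (ENNReal.ofReal (Real.exp (M * t)))).trans h
  have h2 : P {w | t < X w} ≤ P {w | ENNReal.ofReal (Real.exp (M * t)) ≤ ENNReal.ofReal (Real.exp (M * X w))} :=
    measure_mono fun w hw => ENNReal.ofReal_le_ofReal (Real.exp_le_exp.2 (mul_le_mul_of_nonneg_left (le_of_lt hw) hM))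
  have h3 : ENNReal.ofReal (Real.exp (M * t)) * P {w | t < X w} ≤ ENNReal.ofReal (Real.exp B) :=
    (mul_le_mul' le_rfl h2).trans h1
  have hx0 : 0 < Real.exp (M * t) := Real.exp_pos _
  have h4 : P {w | t < X w} ≤ ENNReal.ofReal (Real.exp B) / ENNReal.ofReal (Real.exp (M * t)) := by
    rw [ENNReal.le_div_iff_mul_le (Or.inl (by simpa using hx0)) (Or.inl ENNReal.ofReal_ne_top), mul_comm]
    exact h3
  refine h4.trans (le_of_eq ?_)
  rw [← ENNReal.ofReal_div_of_pos hx0, ← Real.exp_sub]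

/-- one parameter -/
theorem prob65 (hconc : ConcLo) (hd : 0 < d) {γ τ x : ℝ} (hγ : 0 < γ) (h1 : 1 / (d : ℝ) ≤ τ) (h2 : τ * γ < x) (hx0 : 0 < x)
    (hx1 : x ≤ 1) {δ : ℝ} (hδ : 0 < δ) (hδ8 : δ ≤ 1 / 8) (hx : (1 + 3 * δ) * x ≤ 1 - 2 * δ) (D : ℕ) {c₀ : ℝ} (hc₀ : 0 < c₀) :
    ∀ᶠ i : ℕ in atTop, ∀ (k : ℕ) (e : Fin k → Td d → ℝ) (U : Fin (k + 1) → ℝ) (a : ℝ) (α : Td d),
      (∀ i, Continuous (e i)) → 1 ≤ |a| → |a| ≤ Real.exp (D * i + 1) → DC c₀ τ α →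
      Real.exp (-(2 : ℝ) ^ ((1 - 2 * δ) * i)) ≤ |U 0| →
      lawL d {w | (2 : ℝ) ^ ((1 - δ) * i) / 2 < ml α a (frc γ e U w) (2 ^ i)} ≤
        ENNReal.ofReal (Real.exp (-((2 : ℝ) ^ ((1 + 2 * δ) * i) / 16))) := by
  obtain ⟨C, hC, hcc⟩ := hconc
  obtain ⟨C₁, hC₁, hamp⟩ := Pool.Agent.Helper10.AF.amp_ok hd hγ h1 h2 c₀ hc₀
  filter_upwards [eventually_ge_atTop 3, ev65 (show 1 - 2 * δ < 1 - δ by linarith) (1280 * (1 + 4 * C₁)),
    lin65 (show (0 : ℝ) < 1 - δ by linarith) (1280 * (Real.log C + 2)) (1280 * D)] with i hi3 hi1 hi2 k e U a α he ha ha2 hα hU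
  have hi0 : (0 : ℝ) ≤ i := Nat.cast_nonneg i
  obtain ⟨m, hm⟩ : ∃ m : ℕ, 2 ^ i = m + 5 := by
    have h3 : 2 ^ 3 ≤ 2 ^ i := Nat.pow_le_pow_right (by norm_num) hi3
    exact ⟨2 ^ i - 5, by omega⟩
  obtain ⟨M, hMd⟩ : ∃ M : ℕ, M = ⌈(2 : ℝ) ^ (3 * δ * i)⌉₊ := ⟨_, rfl⟩
  have hx1' : 1 ≤ (2 : ℝ) ^ (3 * δ * i) := Real.one_le_rpow one_le_two (by positivity)
  have hMl : (2 : ℝ) ^ (3 * δ * i) ≤ M := by rw [hMd]; exact Nat.le_ceil _
  have hMu : (M : ℝ) ≤ 2 * (2 : ℝ) ^ (3 * δ * i) := by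
    rw [hMd]
    have := Nat.ceil_lt_add_one (by linarith : 0 ≤ (2 : ℝ) ^ (3 * δ * i))
    linarith
  have hM1 : 1 ≤ M := by exact_mod_cast hx1'.trans hMl
  have hM0 : (0 : ℝ) < M := by exact_mod_cast hM1
  obtain ⟨r₀, N, P, β, hr₀, hS, hN, hP, hNP, hPN⟩ := hamp (2 * (m + 5)) M α (by omega) hM1 hα
  have hU0 : 0 < |U 0| := (Real.exp_pos _).trans_le hU
  obtain ⟨R, hR⟩ : ∃ R : ℝ, R = (2 : ℝ) ^ ((1 - 2 * δ) * i) + (P * N : ℝ) ^ γ := ⟨_, rfl⟩
  have hR0 : 0 ≤ R := by rw [hR]; positivity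
  -- the size of the noise
  have hPN2 : (P * N : ℝ) ^ γ ≤ 4 * C₁ * (2 : ℝ) ^ ((1 - 2 * δ) * i) := by
    refine hPN.trans ?_
    have h3 : ((M * (2 * (m + 5)) : ℕ) : ℝ) ≤ 4 * (2 : ℝ) ^ ((1 + 3 * δ) * i) := by
      rw [← hm]
      push_cast
      have h4 : (2 : ℝ) ^ ((1 + 3 * δ) * i) = 2 ^ i * (2 : ℝ) ^ (3 * δ * i) := by
        rw [← Real.rpow_natCast 2 i, ← Real.rpow_add two_pos]
        congr 1
        ring
      rw [h4]
      have h5 : (0 : ℝ) < 2 ^ i := by positivity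
      nlinarith
    have h4 : ((M * (2 * (m + 5)) : ℕ) : ℝ) ^ x ≤ 4 * (2 : ℝ) ^ ((1 - 2 * δ) * i) := by
      refine (Real.rpow_le_rpow (Nat.cast_nonneg _) h3 hx0.le).trans ?_
      rw [Real.mul_rpow (by norm_num) (by positivity), ← Real.rpow_mul two_pos.le]
      refine mul_le_mul ?_ (Real.rpow_le_rpow_of_exponent_le one_le_two ?_) (by positivity) (by norm_num)
      · calc (4 : ℝ) ^ x ≤ 4 ^ (1 : ℝ) := Real.rpow_le_rpow_of_exponent_le (by norm_num) hx1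
          _ = 4 := Real.rpow_one _
      · calc (1 + 3 * δ) * i * x = (1 + 3 * δ) * x * i := by ring
          _ ≤ (1 - 2 * δ) * i := mul_le_mul_of_nonneg_right hx hi0
    calc C₁ * ((M * (2 * (m + 5)) : ℕ) : ℝ) ^ x ≤ C₁ * (4 * (2 : ℝ) ^ ((1 - 2 * δ) * i)) :=
          mul_le_mul_of_nonneg_left h4 (by linarith)
      _ = 4 * C₁ * (2 : ℝ) ^ ((1 - 2 * δ) * i) := by ring
  have hco := hcc d γ k e U α r₀ a (Real.exp (-R)) m M N P β hγ he (abs_pos.1 hU0) hr₀ hS hM1 hN hP hNP ha (Real.exp_pos _)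
    (Real.exp_le_one_iff.2 (by linarith)) (by
      have h3 : Real.exp (-R) ≤ |U 0| * Real.exp (-((P * N : ℝ) ^ γ)) := by
        rw [hR, neg_add, Real.exp_add]
        exact mul_le_mul_of_nonneg_right hU (Real.exp_pos _).le
      have h4 : (20 : ℝ) ≤ (10 * (|a| + 1)) ^ 5 := by
        calc (20 : ℝ) ≤ 20 ^ 5 := by norm_num
          _ ≤ (10 * (|a| + 1)) ^ 5 := pow_le_pow_left₀ (by norm_num) (by linarith) 5
      exact div_le_div₀ (by positivity) h3 (by norm_num) h4)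
  rw [← hm] at hco
  have hE : (C * (|a| + 1) / Real.exp (-R)) ^ (40 * M) ≤ Real.exp (M * (40 * (Real.log C + D * i + 2 + R))) := by
    have h3 : C * (|a| + 1) / Real.exp (-R) ≤ Real.exp (Real.log C + D * i + 2 + R) := by
      have h4 : |a| + 1 ≤ Real.exp (D * i + 2) := by
        have h5 : (2 : ℝ) ≤ Real.exp 1 := by
          have := Real.add_one_le_exp (1 : ℝ)
          linarith
        calc |a| + 1 ≤ 2 * |a| := by linarith
          _ ≤ Real.exp 1 * Real.exp (D * i + 1) := mul_le_mul h5 ha2 (abs_nonneg _) (Real.exp_pos _).le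
          _ = Real.exp (D * i + 2) := by
            rw [← Real.exp_add]
            congr 1
            ring
      rw [Real.exp_neg, div_inv_eq_mul]
      calc C * (|a| + 1) * Real.exp R ≤ Real.exp (Real.log C) * Real.exp (D * i + 2) * Real.exp R := by
            refine mul_le_mul_of_nonneg_right ?_ (Real.exp_pos _).le
            rw [Real.exp_log (by linarith)]
            exact mul_le_mul_of_nonneg_left h4 (by linarith)
        _ = Real.exp (Real.log C + D * i + 2 + R) := by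
          rw [← Real.exp_add, ← Real.exp_add]
          congr 1
          ring
    calc (C * (|a| + 1) / Real.exp (-R)) ^ (40 * M) ≤ Real.exp (Real.log C + D * i + 2 + R) ^ (40 * M) :=
          pow_le_pow_left₀ (by positivity) h3 _
      _ = Real.exp (M * (40 * (Real.log C + D * i + 2 + R))) := by
        rw [← Real.exp_nat_mul]
        congr 1
        push_cast
        ring
  have hmk := mark65 (ml_meas γ he U α a (2 ^ i)) (t := (2 : ℝ) ^ ((1 - δ) * i) / 2) (M := M / 4) (by positivity)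
    (hco.trans (ENNReal.ofReal_le_ofReal hE))
  refine hmk.trans (ENNReal.ofReal_le_ofReal (Real.exp_le_exp.2 ?_))
  have h5 : (2 : ℝ) ^ (3 * δ * i) * (2 : ℝ) ^ ((1 - δ) * i) = (2 : ℝ) ^ ((1 + 2 * δ) * i) := by
    rw [← Real.rpow_add two_pos]
    congr 1
    ring
  have h6 : 0 < (2 : ℝ) ^ ((1 - δ) * i) := by positivity
  have h7 : 40 * (Real.log C + D * i + 2 + R) ≤ (2 : ℝ) ^ ((1 - δ) * i) / 16 := by
    rw [hR]
    linarith
  have h8 : (2 : ℝ) ^ ((1 + 2 * δ) * i) ≤ M * (2 : ℝ) ^ ((1 - δ) * i) := by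
    rw [← h5]
    exact mul_le_mul_of_nonneg_right hMl h6.le
  have h9 : M * (40 * (Real.log C + D * i + 2 + R)) ≤ M * ((2 : ℝ) ^ ((1 - δ) * i) / 16) :=
    mul_le_mul_of_nonneg_left h7 hM0.le
  linarith

/-- two near parameters -/
theorem ml_near {α α' : Td d} {a a' : ℝ} {b b' : Td d → ℝ} (hb : Continuous b) (hb' : Continuous b') {n : ℕ}
    (h : ∀ θ, ∀ m' ≤ 2 * n, ∀ z, |Real.log (nn (pM a (sq α b θ) m' z)) - Real.log (nn (pM a' (sq α' b' θ) m' z))| ≤ 1) :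
    ml α a b n ≤ ml α' a' b' n + 3 := by
  have h1 : ∀ m' ≤ 2 * n, |mg α a b m' - mg α' a' b' m'| ≤ 1 := by
    intro m' hm'
    unfold mg
    rw [← integral_sub (Pool.Agent.Helper6.AU.lg_int α a hb m') (Pool.Agent.Helper6.AU.lg_int α' a' hb' m'), ← Real.norm_eq_abs]
    refine (norm_integral_le_of_norm_le_const (C := 1) (Filter.Eventually.of_forall fun p => ?_)).trans (by simp)
    rw [Real.norm_eq_abs]
    exact h p.1 m' hm' (rep p.2)
  have h2 := abs_le.1 (h1 n (by omega))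
  have h3 := abs_le.1 (h1 (2 * n) le_rfl)
  have h4 := Pool.Agent.Helper6.AU.dbl_eq (α := α) (a := a) hb n
  have h5 := Pool.Agent.Helper6.AU.dbl_eq (α := α') (a := a') hb' n
  linarith [h2.1, h2.2, h3.1, h3.2]

/-- **U3**: all parameters at once, times `2 ^ i` -/
theorem los_all_of (hconc : ConcLo) (hd : 0 < d) {γ τ : ℝ} (hγ : 0 < γ) (h1 : 1 / (d : ℝ) ≤ τ) (h2 : τ * γ < 1) {k : ℕ}
    {e : Fin k → Td d → ℝ} (he : ∀ i, Ho (e i)) (D : ℕ) {δ₀ : ℝ} (hδ₀ : 0 < δ₀) :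
    ∃ δ : ℝ, 0 < δ ∧ δ < δ₀ ∧ ∀ᵐ w ∂lawL d, ∀ c₀ : ℝ, 0 < c₀ → ∃ (i₁ : ℕ) (A₁ : ℝ), ∀ i ≥ i₁, ∀ α : Td d, DC c₀ τ α →
      ∀ (a : ℝ) (U : Fin (k + 1) → ℝ), A₁ ≤ |a| → |a| ≤ 2 ^ (D * i) → (∀ j, |U j| ≤ |a|) →
      Real.exp (-(2 : ℝ) ^ ((1 - 2 * δ) * i)) ≤ |U 0| →
      ml α a (frc γ e U w) (2 ^ i) ≤ (2 : ℝ) ^ ((1 - δ) * i) := by
  have hec : ∀ i, Continuous (e i) := fun i => ho_cont (he i)
  have hτ : 0 < τ := lt_of_lt_of_le (by positivity) h1
  obtain ⟨x, hx0, hx1, hx2⟩ : ∃ x : ℝ, 0 < x ∧ τ * γ < x ∧ x < 1 := by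
    have := mul_pos hτ hγ
    exact ⟨(τ * γ + 1) / 2, by linarith, by linarith, by linarith⟩
  obtain ⟨δ, hδd⟩ : ∃ δ : ℝ, δ = min (δ₀ / 2) (min (1 / 8) ((1 - x) / 5)) := ⟨_, rfl⟩
  have hδ : 0 < δ := by
    rw [hδd]
    exact lt_min (by linarith) (lt_min (by norm_num) (by linarith))
  have e1 : δ ≤ δ₀ / 2 := by rw [hδd]; exact min_le_left _ _
  have e2 : δ ≤ 1 / 8 := by rw [hδd]; exact (min_le_right _ _).trans (min_le_left _ _)
  have e3 : δ ≤ (1 - x) / 5 := by rw [hδd]; exact (min_le_right _ _).trans (min_le_right _ _)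
  have hxδ : (1 + 3 * δ) * x ≤ 1 - 2 * δ := by nlinarith
  refine ⟨δ, hδ, by linarith, ?_⟩
  obtain ⟨G, hG1, hG⟩ := Pool.Agent.Helper94.AG.net_ex γ he
  -- the nets
  obtain ⟨S, hS⟩ : ∃ S : ℕ → ℕ → ℕ → Set (ℝ × (Fin (k + 1) → ℝ) × Td d), S = fun (m i l : ℕ) =>
      {u : ℝ × (Fin (k + 1) → ℝ) × Td d | u ∈ Bx k ((l : ℝ) + 1) ∧ Real.exp (-(2 : ℝ) ^ ((1 - 2 * δ) * i)) ≤ |u.2.1 0| ∧
        DC (1 / ((m : ℝ) + 1)) τ u.2.2} := ⟨_, rfl⟩
  have hnet : ∀ m i l : ℕ, ∃ N : Finset (ℝ × (Fin (k + 1) → ℝ) × Td d),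
      (N.card : ℝ) ≤ Real.exp (G * ((2 * 2 ^ i : ℕ) : ℝ) * ((l : ℝ) + 1)) ∧
      ↑N ⊆ S m i l ∧ ∀ u ∈ S m i l, ∃ v ∈ N, ∀ w : Ow d,
        Hw γ w ≤ ENNReal.ofReal (Real.exp ((l : ℝ) + 1)) →
        (∀ x y, |eta γ w x - eta γ w y| ≤ Real.exp ((l : ℝ) + 1) * dist x y) → ∀ (θ : Td d) (m m' : ℕ), m + m' ≤ 2 * 2 ^ i → ∀ z,
          |Real.log (nn (pM u.1 (shb (sq u.2.2 (frc γ e u.2.1 w) θ) m) m' z)) -
            Real.log (nn (pM v.1 (shb (sq v.2.2 (frc γ e v.2.1 w) θ) m) m' z))| ≤ 1 := fun m i l =>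
    hG (2 * 2 ^ i) ((l : ℝ) + 1) (by
      have := Nat.one_le_two_pow (n := i)
      omega) (by linarith [Nat.cast_nonneg (α := ℝ) l]) (S m i l) (by
      rw [hS]
      exact fun u hu => hu.1)
  choose N hNc hNB hNn using hnet
  -- the bad events
  obtain ⟨B, hB⟩ : ∃ B : ℕ → ℝ × (Fin (k + 1) → ℝ) × Td d → Set (Ow d), B = fun (i : ℕ) (v : ℝ × (Fin (k + 1) → ℝ) × Td d) =>
      {w | (2 : ℝ) ^ ((1 - δ) * i) / 2 < ml v.2.2 v.1 (frc γ e v.2.1 w) (2 ^ i)} := ⟨_, rfl⟩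
  have hprob : ∀ m : ℕ, ∀ᵐ w ∂lawL d, ∀ᶠ i : ℕ in atTop, ∀ l ∈ Finset.range (D * i), ∀ v ∈ N m i l, w ∉ B i v := by
    intro m
    have hm : (0 : ℝ) < 1 / ((m : ℝ) + 1) := by positivity
    obtain ⟨i₀, hi₀⟩ := eventually_atTop.1 ((prob65 hconc hd hγ h1 hx1 hx0 hx2.le hδ e2 hxδ D hm).and
      (lin65 (show (0 : ℝ) < 2 * δ by linarith) 0 (16 * (D + 1 + 2 * G * D))))
    have hev : ∀ i : ℕ, i₀ ≤ i → lawL d (⋃ l ∈ Finset.range (D * i), ⋃ v ∈ N m i l, B i v) ≤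
        ENNReal.ofReal (Real.exp (-(i : ℝ))) := by
      intro i hi
      obtain ⟨hp, hq⟩ := hi₀ i hi
      have hi0 : (0 : ℝ) ≤ i := Nat.cast_nonneg i
      have hD0 : (0 : ℝ) ≤ D := Nat.cast_nonneg D
      obtain ⟨E, hE⟩ : ∃ E : ℝ, E = Real.exp (-((2 : ℝ) ^ ((1 + 2 * δ) * i) / 16)) := ⟨_, rfl⟩
      have hE0 : 0 < E := by rw [hE]; exact Real.exp_pos _
      have hb : ∀ l ∈ Finset.range (D * i), lawL d (⋃ v ∈ N m i l, B i v) ≤
          ENNReal.ofReal (Real.exp (G * (2 * 2 ^ i) * (D * i)) * E) := by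
        intro l hl
        have hl1 : (l : ℝ) + 1 ≤ D * i := by
          have h3 : l + 1 ≤ D * i := Finset.mem_range.1 hl
          exact_mod_cast h3
        calc lawL d (⋃ v ∈ N m i l, B i v) ≤ ∑ v ∈ N m i l, lawL d (B i v) := measure_biUnion_finset_le _ _
          _ ≤ ∑ v ∈ N m i l, ENNReal.ofReal E := by
            refine Finset.sum_le_sum fun v hv => ?_
            have hvS := hNB m i l hv
            rw [hS] at hvS
            obtain ⟨⟨b1, b2, b3⟩, b4, b5⟩ := hvS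
            rw [hB, hE]
            refine hp k e v.2.1 v.1 v.2.2 hec ?_ ?_ b5 b4
            · exact (Real.one_le_exp (by positivity)).trans b1
            · exact b2.trans (Real.exp_le_exp.2 (by linarith))
          _ = ENNReal.ofReal ((N m i l).card * E) := by
            rw [Finset.sum_const, nsmul_eq_mul, ENNReal.ofReal_mul (by positivity), ENNReal.ofReal_natCast]
          _ ≤ ENNReal.ofReal (Real.exp (G * (2 * 2 ^ i) * (D * i)) * E) := by
            refine ENNReal.ofReal_le_ofReal (mul_le_mul_of_nonneg_right ((hNc m i l).trans (Real.exp_le_exp.2 ?_)) hE0.le)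
            push_cast
            exact mul_le_mul_of_nonneg_left hl1 (by positivity)
      calc lawL d (⋃ l ∈ Finset.range (D * i), ⋃ v ∈ N m i l, B i v)
          ≤ ∑ l ∈ Finset.range (D * i), lawL d (⋃ v ∈ N m i l, B i v) := measure_biUnion_finset_le _ _
        _ ≤ ∑ l ∈ Finset.range (D * i), ENNReal.ofReal (Real.exp (G * (2 * 2 ^ i) * (D * i)) * E) := Finset.sum_le_sum hb
        _ = ENNReal.ofReal ((D * i : ℕ) * (Real.exp (G * (2 * 2 ^ i) * (D * i)) * E)) := by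
          rw [Finset.sum_const, Finset.card_range, nsmul_eq_mul, ENNReal.ofReal_mul (Nat.cast_nonneg _), ENNReal.ofReal_natCast]
        _ ≤ ENNReal.ofReal (Real.exp (-(i : ℝ))) := by
          refine ENNReal.ofReal_le_ofReal ?_
          have h3 : ((D * i : ℕ) : ℝ) ≤ Real.exp (D * i) := by
            push_cast
            have := Real.add_one_le_exp ((D : ℝ) * i)
            linarith
          calc ((D * i : ℕ) : ℝ) * (Real.exp (G * (2 * 2 ^ i) * (D * i)) * E)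
              ≤ Real.exp (D * i) * (Real.exp (G * (2 * 2 ^ i) * (D * i)) * E) :=
                mul_le_mul_of_nonneg_right h3 (by positivity)
            _ = Real.exp (D * i + (G * (2 * 2 ^ i) * (D * i) + -((2 : ℝ) ^ ((1 + 2 * δ) * i) / 16))) := by
              rw [hE, ← Real.exp_add, ← Real.exp_add]
            _ ≤ Real.exp (-(i : ℝ)) := by
              refine Real.exp_le_exp.2 ?_
              have h4 : (2 : ℝ) ^ ((1 + 2 * δ) * i) = 2 ^ i * (2 : ℝ) ^ (2 * δ * i) := by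
                rw [← Real.rpow_natCast 2 i, ← Real.rpow_add two_pos]
                congr 1
                ring
              rw [h4]
              have h5 : (1 : ℝ) ≤ 2 ^ i := one_le_pow₀ one_le_two
              have h6 : (2 : ℝ) ^ i * (16 * (D + 1 + 2 * G * D) * i) ≤ 2 ^ i * (2 : ℝ) ^ (2 * δ * i) :=
                mul_le_mul_of_nonneg_left (by linarith) (by positivity)
              have h7 : (D : ℝ) * i + i ≤ 2 ^ i * (D * i + i) := le_mul_of_one_le_left (by positivity) h5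
              nlinarith
    obtain ⟨s, hs⟩ : ∃ s : ℕ → Set (Ow d), s = fun i => if i < i₀ then ∅ else
        (⋃ l ∈ Finset.range (D * i), ⋃ v ∈ N m i l, B i v) := ⟨_, rfl⟩
    have hsum : ∑' i, lawL d (s i) ≠ ∞ := by
      have h5 : ∀ i, lawL d (s i) ≤ ENNReal.ofReal (Real.exp (-(i : ℝ))) := by
        intro i
        rw [hs]
        dsimp only
        split_ifs with h6
        · simp
        · exact hev i (not_lt.1 h6)
      refine ne_top_of_le_ne_top ?_ (ENNReal.tsum_le_tsum h5)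
      rw [← ENNReal.ofReal_tsum_of_nonneg (fun i => by positivity) Real.summable_exp_neg_nat]
      exact ENNReal.ofReal_ne_top
    filter_upwards [ae_eventually_notMem hsum] with w hw
    filter_upwards [hw, eventually_ge_atTop i₀] with i h5 h6
    rw [hs] at h5
    dsimp only at h5
    rw [if_neg (not_lt.2 h6)] at h5
    intro l hl v hv hwv
    exact h5 (mem_biUnion hl (mem_biUnion hv hwv))
  filter_upwards [ae_all_iff.2 hprob, Pool.Agent.Helper82.AN.Hw_ae hγ, Pool.Agent.Helper82.AN.eta_lip hγ] with w hw hwt hwl c₀ hc₀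
  obtain ⟨Kw, hKw0, hKw⟩ := hwl
  obtain ⟨m, hm⟩ := exists_nat_one_div_lt hc₀
  obtain ⟨i₁, hi₁⟩ := eventually_atTop.1 ((hw m).and (lin65 (show (0 : ℝ) < 1 - δ by linarith) 6 0))
  obtain ⟨l2, hl2⟩ := exists_nat_ge (max Kw (Hw γ w).toReal)
  refine ⟨i₁, Real.exp ((l2 : ℝ) + 2), fun i hi α hα a U ha haD hU hU0 => ?_⟩
  obtain ⟨hwi, h6i⟩ := hi₁ i hi
  have ha0 : 0 < |a| := lt_of_lt_of_le (Real.exp_pos _) ha
  have hlog : (l2 : ℝ) + 2 ≤ Real.log |a| := (Real.le_log_iff_exp_le ha0).2 ha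
  have hl2p : (0 : ℝ) ≤ l2 := Nat.cast_nonneg _
  obtain ⟨q, hq⟩ : ∃ q : ℕ, q = ⌊Real.log |a|⌋₊ := ⟨_, rfl⟩
  have hq1 : (q : ℝ) ≤ Real.log |a| := by
    rw [hq]
    exact Nat.floor_le (by linarith)
  have hq2 : Real.log |a| < q + 1 := by
    rw [hq]
    exact Nat.lt_floor_add_one _
  have hq3 : l2 + 1 < q + 1 := by
    have : ((l2 + 1 : ℕ) : ℝ) < ((q + 1 : ℕ) : ℝ) := by
      push_cast
      linarith
    exact_mod_cast this
  have hq4 : q ≤ D * i := by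
    have h3 : Real.log |a| ≤ ((D * i : ℕ) : ℝ) := by
      refine (Real.log_le_log ha0 haD).trans ?_
      rw [Real.log_pow]
      have h4 := Real.log_two_lt_d9
      have h5 : (0 : ℝ) ≤ ((D * i : ℕ) : ℝ) := Nat.cast_nonneg _
      nlinarith
    exact_mod_cast hq1.trans h3
  obtain ⟨l, rfl⟩ : ∃ l, q = l + 1 := ⟨q - 1, by omega⟩
  push_cast at hq1 hq2
  have hll2 : l2 ≤ l := by omega
  have hll2' : (l2 : ℝ) ≤ l := by exact_mod_cast hll2
  have hexp : (l : ℝ) + 1 ≤ Real.exp ((l : ℝ) + 1) := by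
    have := Real.add_one_le_exp ((l : ℝ) + 1)
    linarith
  have hKwl : Kw ≤ Real.exp ((l : ℝ) + 1) := by
    have := (le_max_left Kw (Hw γ w).toReal).trans hl2
    linarith
  have hHw : Hw γ w ≤ ENNReal.ofReal (Real.exp ((l : ℝ) + 1)) := by
    rw [← ENNReal.ofReal_toReal hwt]
    refine ENNReal.ofReal_le_ofReal ?_
    have := (le_max_right Kw (Hw γ w).toReal).trans hl2
    linarith
  have hlip : ∀ x y, |eta γ w x - eta γ w y| ≤ Real.exp ((l : ℝ) + 1) * dist x y := fun x y =>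
    (hKw x y).trans (mul_le_mul_of_nonneg_right hKwl dist_nonneg)
  have hu : ((a, U, α) : ℝ × (Fin (k + 1) → ℝ) × Td d) ∈ S m i l := by
    rw [hS]
    refine ⟨⟨?_, ?_, fun i => ?_⟩, hU0, dc_mono hα hm.le⟩
    · exact (Real.le_log_iff_exp_le ha0).1 hq1
    · exact ((Real.log_lt_iff_lt_exp ha0).1 hq2).le
    · exact (hU i).trans ((Real.log_lt_iff_lt_exp ha0).1 hq2).le
  obtain ⟨v, hv, hvn⟩ := hNn m i l _ hu
  have h5 := hwi l (Finset.mem_range.2 (by omega)) v hv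
  rw [hB] at h5
  have h6 : ml v.2.2 v.1 (frc γ e v.2.1 w) (2 ^ i) ≤ (2 : ℝ) ^ ((1 - δ) * i) / 2 := not_lt.1 h5
  have h7 := ml_near (frc_cont hec U hwt) (frc_cont hec v.2.1 hwt) (n := 2 ^ i) (fun θ m' hm' z => by
    have h8 := hvn w hHw hlip θ 0 m' (by omega) z
    rw [shb_zero, shb_zero] at h8
    exact h8)
  linarith

end Pool.Agent.Helper65.AU
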