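import Pool.Agent.Helper65.AU.LosAll
import Pool.Agent.Helper30.AU.ConcFin

/-! # Project AU (`MP_9ee088_an`), block U3 without hypotheses -/

set_option autoImplicit false
open MeasureTheory Real Set Filter Topology
open scoped ENNReal

namespace Pool.Agent.Helper65.AU

open Pool.Agent.Helper46.QP (TT Td)
open Pool.Agent.Helper82.AN (Ow lawL eta Hw sq SepR)
open Pool.Agent.Helper95.AF (frc DC Ho)
open Pool.Agent.Helper95.AU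

variable {d : ℕ}

/-- **U3** -/
theorem los_all (hd : 0 < d) {γ τ : ℝ} (hγ : 0 < γ) (h1 : 1 / (d : ℝ) ≤ τ) (h2 : τ * γ < 1) {k : ℕ}
    {e : Fin k → Td d → ℝ} (he : ∀ i, Ho (e i)) (D : ℕ) {δ₀ : ℝ} (hδ₀ : 0 < δ₀) :
    ∃ δ : ℝ, 0 < δ ∧ δ < δ₀ ∧ ∀ᵐ w ∂lawL d, ∀ c₀ : ℝ, 0 < c₀ → ∃ (i₁ : ℕ) (A₁ : ℝ), ∀ i ≥ i₁, ∀ α : Td d, DC c₀ τ α →
      ∀ (a : ℝ) (U : Fin (k + 1) → ℝ), A₁ ≤ |a| → |a| ≤ 2 ^ (D * i) → (∀ j, |U j| ≤ |a|) →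
      Real.exp (-(2 : ℝ) ^ ((1 - 2 * δ) * i)) ≤ |U 0| →
      ml α a (frc γ e U w) (2 ^ i) ≤ (2 : ℝ) ^ ((1 - δ) * i) :=
  los_all_of Pool.Agent.Helper30.AU.conc_lo hd hγ h1 h2 he D hδ₀

end Pool.Agent.Helper65.AU
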